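import Pool.Agent.U115.WM.Stm

/-!
Project WM, package EXB: the lattice of the integer vectors in the column space of an integral matrix
of rank `k` has a basis of `k` elements.
-/

set_option autoImplicit false

open scoped Classical
open Matrix

namespace Pool.Agent.U618.WM

open Pool.Agent.U115.WM

/-- the integer vectors in the column space -/
def Lam {n m : ℕ} (A : Matrix (Fin n) (Fin m) ℤ) : Submodule ℤ (Fin n → ℤ) where
  carrier := {v | ∃ d : ℤ, d ≠ 0 ∧ ∃ w : Fin m → ℤ, d • v = A *ᵥ w}
  add_mem' := by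
    rintro v v' ⟨d, hd, w, hw⟩ ⟨d', hd', w', hw'⟩
    refine ⟨d * d', mul_ne_zero hd hd', d' • w + d • w', ?_⟩
    rw [Matrix.mulVec_add, Matrix.mulVec_smul, Matrix.mulVec_smul, ← hw, ← hw', smul_add, smul_smul,
      smul_smul, mul_comm d' d]
  zero_mem' := ⟨1, one_ne_zero, 0, by simp⟩
  smul_mem' := by
    rintro c v ⟨d, hd, w, hw⟩
    refine ⟨d, hd, c • w, ?_⟩
    rw [Matrix.mulVec_smul, ← hw, smul_comm]

theorem mem_Lam {n m : ℕ} {A : Matrix (Fin n) (Fin m) ℤ} {v : Fin n → ℤ} :
    v ∈ Lam A ↔ ∃ d : ℤ, d ≠ 0 ∧ ∃ w : Fin m → ℤ, d • v = A *ᵥ w := Iff.rfl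

/-- integer vectors as rational vectors -/
def cst (n : ℕ) : (Fin n → ℤ) →ₗ[ℤ] (Fin n → ℚ) where
  toFun v l := (v l : ℚ)
  map_add' v w := by
    funext l
    simp
  map_smul' c v := by
    funext l
    simp

theorem cst_inj (n : ℕ) : Function.Injective (cst n) := by
  intro v w h
  funext l
  have := congrFun h l
  exact Int.cast_injective this

theorem cst_mulVec {n m : ℕ} (A : Matrix (Fin n) (Fin m) ℤ) (w : Fin m → ℤ) :
    (A.map (Int.cast : ℤ → ℚ)) *ᵥ (cst m w) = cst n (A *ᵥ w) := by
  funext l
  simp only [Matrix.mulVec, dotProduct, cst, LinearMap.coe_mk, AddHom.coe_mk, Matrix.map_apply]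
  push_cast
  rfl

theorem t_EXB : S_EXB := by
  intro n m k A hk
  obtain ⟨r, b⟩ := Submodule.basisOfPid (Pi.basisFun ℤ (Fin n)) (Lam A)
  -- independence over the rationals
  have hliZ : LinearIndependent ℤ (fun i => cst n (b i : Fin n → ℤ)) := by
    have h1 : LinearIndependent ℤ (fun i => ((b i : Lam A) : Fin n → ℤ)) :=
      b.linearIndependent.map' (Lam A).subtype (Submodule.ker_subtype _)
    exact h1.map' (cst n) (LinearMap.ker_eq_bot.2 (cst_inj n))
  have hliQ : LinearIndependent ℚ (fun i => cst n (b i : Fin n → ℤ)) :=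
    (LinearIndependent.iff_fractionRing ℤ ℚ).1 hliZ
  have hrange : LinearMap.range (A.map (Int.cast : ℤ → ℚ)).mulVecLin =
      Submodule.span ℚ (Set.range fun i => cst n (b i : Fin n → ℤ)) := by
    apply le_antisymm
    · rintro _ ⟨x, rfl⟩
      have hx : (A.map (Int.cast : ℤ → ℚ)).mulVecLin x =
          ∑ j, x j • cst n (A *ᵥ (Pi.single j 1)) := by
        have h1 : x = ∑ j, x j • cst m (Pi.single j 1) := by
          funext l
          rw [Finset.sum_apply, Finset.sum_eq_single l]
          · simp [cst]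
          · intro j _ hj
            simp [cst, Pi.single_apply, Ne.symm hj]
          · intro h
            exact absurd (Finset.mem_univ l) h
        conv_lhs => rw [h1]
        rw [map_sum]
        refine Finset.sum_congr rfl fun j _ => ?_
        rw [map_smul, Matrix.mulVecLin_apply, cst_mulVec]
      rw [hx]
      refine Submodule.sum_mem _ fun j _ => Submodule.smul_mem _ _ ?_
      have hmem : A *ᵥ (Pi.single j 1) ∈ Lam A := ⟨1, one_ne_zero, Pi.single j 1, by simp⟩
      have hrep2 : ∑ i, (b.repr ⟨A *ᵥ (Pi.single j 1), hmem⟩) i • ((b i : Lam A) : Fin n → ℤ) =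
          A *ᵥ (Pi.single j 1) := by
        have h3 := congrArg (fun y : Lam A => (y : Fin n → ℤ))
          (b.sum_repr ⟨A *ᵥ (Pi.single j 1), hmem⟩)
        simpa only [Submodule.coe_sum, Submodule.coe_smul] using h3
      rw [← hrep2, map_sum]
      refine Submodule.sum_mem _ fun i _ => ?_
      rw [map_smul]
      exact zsmul_mem (Submodule.subset_span (Set.mem_range_self i)) _
    · rw [Submodule.span_le]
      rintro _ ⟨i, rfl⟩
      obtain ⟨d, hd, w, hw⟩ := mem_Lam.1 (b i).2
      refine ⟨(d : ℚ)⁻¹ • cst m w, ?_⟩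
      have hd' : (d : ℚ) ≠ 0 := Int.cast_ne_zero.2 hd
      rw [map_smul, Matrix.mulVecLin_apply, cst_mulVec, ← hw, map_smul]
      funext l
      simp only [Pi.smul_apply, smul_eq_mul]
      rw [zsmul_eq_mul, inv_mul_cancel_left₀ hd']
  have hr : r = k := by
    rw [← hk, Matrix.rank, hrange, finrank_span_eq_card hliQ, Fintype.card_fin]
  subst hr
  refine ⟨Matrix.of fun l i => (b i : Fin n → ℤ) l, ?_, ?_⟩
  · intro c hc
    have h1 : ∑ i, c i • b i = 0 := by
      apply Subtype.ext
      funext l
      have h2 := congrFun hc l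
      simp only [Matrix.mulVec, dotProduct, Matrix.of_apply, Pi.zero_apply] at h2
      simp only [Submodule.coe_sum, Submodule.coe_smul, Finset.sum_apply, Pi.smul_apply,
        smul_eq_mul, Submodule.coe_zero, Pi.zero_apply]
      rw [← h2]
      exact Finset.sum_congr rfl fun i _ => mul_comm _ _
    funext i
    exact Fintype.linearIndependent_iff.1 b.linearIndependent c h1 i
  · intro v
    rw [← mem_Lam]
    constructor
    · rintro ⟨c, rfl⟩
      have h1 : (Matrix.of fun l i => (b i : Fin n → ℤ) l) *ᵥ c =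
          ((∑ i, c i • b i : Lam A) : Fin n → ℤ) := by
        funext l
        simp only [Matrix.mulVec, dotProduct, Matrix.of_apply, Submodule.coe_sum,
          Submodule.coe_smul, Finset.sum_apply, Pi.smul_apply, smul_eq_mul]
        exact Finset.sum_congr rfl fun i _ => mul_comm _ _
      show (Matrix.of fun l i => (b i : Fin n → ℤ) l) *ᵥ c ∈ Lam A
      rw [h1]
      exact Subtype.mem _
    · intro hv
      refine ⟨fun i => b.repr ⟨v, hv⟩ i, ?_⟩
      have h1 := congrArg (fun y : Lam A => (y : Fin n → ℤ)) (b.sum_repr ⟨v, hv⟩)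
      simp only [Submodule.coe_sum, Submodule.coe_smul] at h1
      show (Matrix.of fun l i => (b i : Fin n → ℤ) l) *ᵥ _ = v
      conv_rhs => rw [← h1]
      funext l
      simp only [Matrix.mulVec, dotProduct, Matrix.of_apply, Finset.sum_apply, Pi.smul_apply,
        smul_eq_mul]
      exact Finset.sum_congr rfl fun i _ => mul_comm _ _

end Pool.Agent.U618.WM
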